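import Pool.Agent.W2helper31.GP.Stm2

/-!
# Project GP, piece MOM: absolute moments of the standard normal law
-/

set_option autoImplicit false

open MeasureTheory ProbabilityTheory
open scoped ENNReal NNReal

namespace Pool.Agent.W2helper77.GP

theorem p_MOM : Pool.Agent.W2helper31.GP.P_MOM := by
  intro s hs
  have key : ∫ x, |x| ^ s ∂(gaussianReal 0 1)
      = 2 ^ (s / 2) * Real.Gamma ((s + 1) / 2) / Real.sqrt Real.pi := by
    rw [integral_gaussianReal_eq_integral_smul one_ne_zero]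
    have e : ∀ x : ℝ, gaussianPDFReal 0 1 x • |x| ^ s =
        (fun y : ℝ => (Real.sqrt (2 * Real.pi))⁻¹ *
          (y ^ s * Real.exp (-(1 / 2) * y ^ (2 : ℝ)))) |x| := by
      intro x
      simp only [gaussianPDFReal, smul_eq_mul, NNReal.coe_one, mul_one, sub_zero]
      rw [Real.rpow_two, sq_abs]
      have : -x ^ 2 / 2 = -(1 / 2) * x ^ 2 := by ring
      rw [this]
      ring
    simp_rw [e]
    rw [integral_comp_abs (f := fun y : ℝ => (Real.sqrt (2 * Real.pi))⁻¹ *
          (y ^ s * Real.exp (-(1 / 2) * y ^ (2 : ℝ)))), integral_const_mul,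
      integral_rpow_mul_exp_neg_mul_rpow (by norm_num) hs (by norm_num)]
    have h2 : Real.sqrt (2 * Real.pi) = 2 ^ ((1 : ℝ) / 2) * Real.sqrt Real.pi := by
      rw [Real.sqrt_mul (by norm_num), Real.sqrt_eq_rpow 2]
    have h3 : ((1 : ℝ) / 2) ^ (-(s + 1) / 2) = 2 ^ (s / 2) * 2 ^ ((1 : ℝ) / 2) := by
      rw [one_div, Real.inv_rpow (by norm_num), ← Real.rpow_neg (by norm_num),
        ← Real.rpow_add (by norm_num)]
      congr 1
      ring
    rw [h2, h3]
    have h4 : (2 : ℝ) ^ ((1 : ℝ) / 2) ≠ 0 := by positivity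
    have h5 : Real.sqrt Real.pi ≠ 0 := by positivity
    field_simp
  refine ⟨?_, key⟩
  by_contra h
  have h1 := integral_undef h
  rw [key] at h1
  have h2 : 0 < Real.Gamma ((s + 1) / 2) := Real.Gamma_pos_of_pos (by linarith)
  have h3 : 0 < 2 ^ (s / 2) * Real.Gamma ((s + 1) / 2) / Real.sqrt Real.pi := by positivity
  linarith

end Pool.Agent.W2helper77.GP
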